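import Pool.Agent.H225.MX2

/-!
# Chains of almost primes with a prescribed length and exact neighbourhoods

Let `L i m = 2^i (m + 1) - 1`, `i < l`: the members `m, 2 m + 1, 4 m + 3, …` of a (Cunningham) chain of the
first kind of length `l` with the first member `m`.  Let `b ≥ 2` be a base, `M ≤ b^{DK}`, and let `P` be ANY set of `k` pairs `(i, h)` with
`0 ≤ h ≤ c K`, such that no prime divides one of the numbers `L i m + h`, `(i, h) ∈ P`, for all `m`.  For
`m = M + n`, let the digits of `n < b^K` be restricted: the `i`-th digit belongs to a set `A i`, where the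
sets `A i` are arbitrary, depend on the place `i < K`, and have the only property that the number `∏ |A i|`
of these `n` is at least `e^{-δK} b^K`, where the constant `δ > 0` does not depend on `b`.

Then the sieve product `V` is at least `κ / K^k`, and (if the last digit can be chosen such that these
numbers are prime to `b`) for at least `κ V ∏ |A i|` of these `n` the numbers `L i m + h`, `(i, h) ∈ P`, have
at most `r` prime factors, all larger than `b^{K/r}`, while ALL other numbers `L i m + j`, `0 ≤ j ≤ c K`, have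
a prime factor `≤ b^{K/r}`: the neighbourhoods of ALL the members `L i m` are prescribed exactly on the scale
of the mean distance.  For at most `C V ∏ |A i|` of these `n` the numbers `L i m + h`, `(i, h) ∈ P`, are all
prime.  The constants do not depend on `M`, `P`.

If `(l - 1, 0) ∉ P` and `(i, 0) ∈ P` for `i < l - 1`, then the chain stops after `l - 1` members.

The method is a Brun–Hooley sieve with weights, whose level of distribution is obtained from the Fourier
transform of the set of the integers with restricted digits at rationals (large sieve in blocks of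
digits), see `Pool/Agent/Y816/PD`; the other numbers are excluded by the upper bound for patterns with one
more element near one of the members and an average of the sieve products, in which the coincidences
modulo `p` of the different members are controlled uniformly, see `Pool/Agent/H225/MX`, `MX2`.
-/

set_option autoImplicit false

namespace Pool.Agent.Results.MP_77cbc6_nt.ExactNeighbourhoods

open Finset Filter

/-- The members of a chain of the first kind: `L (i + 1) m = 2 L i m + 1`. -/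
def L {l : ℕ} (i : Fin l) (m : ℕ) : ℤ := 2 ^ (i : ℕ) * (m + 1) - 1

/-- `p` divides one of the numbers `L i y + h`, where `(i, h) ∈ P`. -/
def Bad {l : ℕ} (P : Finset (Fin l × ℕ)) (p y : ℕ) : Prop := ∃ x ∈ P, (p : ℤ) ∣ L x.1 y + x.2

/-- No prime is bad for all `y`. -/
def Admissible {l : ℕ} (P : Finset (Fin l × ℕ)) : Prop := ∀ p : ℕ, p.Prime → ∃ y : ℕ, ¬ Bad P p y

open Classical in
/-- The number of the `y` modulo `p` for which `p` is bad. -/
noncomputable def nu {l : ℕ} (P : Finset (Fin l × ℕ)) (p : ℕ) : ℕ :=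
  ((range p).filter (fun y : ℕ => Bad P p y)).card

/-- The product of `1 - nu p / p` over the primes `p ≤ x`. -/
noncomputable def V {l : ℕ} (P : Finset (Fin l × ℕ)) (x : ℕ) : ℝ :=
  ∏ p ∈ (Icc 1 x).filter Nat.Prime, (1 - (nu P p : ℝ) / p)

open Classical in
/-- The number of the `n < b ^ K` in `T`, whose `i`-th digit in base `b` belongs to `A i` for all
`i < K`. -/
noncomputable def count (b K : ℕ) (A : ℕ → Finset ℕ) (T : Set ℕ) : ℕ :=
  ((range (b ^ K)).filter (fun n => (∀ i < K, n / b ^ i % b ∈ A i) ∧ n ∈ T)).card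

/-- The number of choices of the digits. -/
noncomputable def choices (K : ℕ) (A : ℕ → Finset ℕ) : ℝ := ∏ i ∈ range K, ((A i).card : ℝ)

/-- All prime factors of `m` are larger than `z ^ (1 / r)`. -/
def Rough (r z m : ℕ) : Prop := ∀ p : ℕ, p.Prime → p ∣ m → z < p ^ r

/-- `m` has at most `r` prime factors, all larger than `z ^ (1 / r)`. -/
def AlmostPrime (r z m : ℕ) : Prop := Rough r z m ∧ m.primeFactorsList.length ≤ r

open Pool.Agent.Y816.PD (ND ND_sub)
open Pool.Agent.H225.MX (fm Oc Adm sep_of_dvd)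

/-- the coefficients -/
def ca {l : ℕ} (i : Fin l) : ℤ := 2 ^ (i : ℕ)

/-- the constant terms -/
def cc {l : ℕ} (i : Fin l) : ℤ := 2 ^ (i : ℕ) - 1

lemma L_eq {l : ℕ} (i : Fin l) (m : ℕ) : L i m = ca i * m + cc i := by
  unfold L ca cc
  ring

lemma ca_ne {l : ℕ} (i : Fin l) : ca i ≠ 0 := by
  unfold ca
  positivity

lemma pow_two_dvd {i i' : ℕ} (h : i < i') : ∃ q : ℤ, 2 ≤ q.natAbs ∧ (2 : ℤ) ^ i' = q * 2 ^ i := by
  refine ⟨2 ^ (i' - i), ?_, ?_⟩
  · rw [Int.natAbs_pow]
    exact Nat.le_self_pow (by omega) 2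
  · rw [← pow_add, Nat.sub_add_cancel h.le]

lemma ca_dvd {l : ℕ} (i i' : Fin l) (h : i ≠ i') : (∃ q : ℤ, 2 ≤ q.natAbs ∧ ca i' = q * ca i) ∨
    ∃ q : ℤ, 2 ≤ q.natAbs ∧ ca i = q * ca i' := by
  unfold ca
  rcases lt_or_gt_of_ne (fun h1 => h (Fin.ext h1) : (i : ℕ) ≠ i') with h1 | h1
  · exact Or.inl (pow_two_dvd h1)
  · exact Or.inr (pow_two_dvd h1)

lemma L_ge {l : ℕ} (i : Fin l) (m h : ℕ) : m ≤ (L i m + h).natAbs := by
  have h1 : (1 : ℤ) ≤ 2 ^ (i : ℕ) := one_le_pow₀ (by norm_num)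
  have h2 : (m : ℤ) ≤ L i m + h := by
    unfold L
    nlinarith
  omega

lemma fm_eq {l : ℕ} (x : Fin l × ℕ) (y : ℕ) : fm ca cc x y = L x.1 y + x.2 := by
  unfold fm
  rw [L_eq]

lemma Oc_iff {l : ℕ} (P : Finset (Fin l × ℕ)) (p y : ℕ) : Oc ca cc P p y ↔ Bad P p y := by
  refine exists_congr fun x => and_congr_right fun _ => ?_
  rw [fm_eq]

lemma V_eq {l : ℕ} (P : Finset (Fin l × ℕ)) (x : ℕ) : Pool.Agent.H225.MX.V ca cc P x = V P x := by
  classical
  unfold V Pool.Agent.H225.MX.V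
  refine prod_congr rfl fun p _ => ?_
  have h : Pool.Agent.H225.MX.nu ca cc P p = nu P p := by
    unfold nu Pool.Agent.H225.MX.nu
    congr 1
    refine filter_congr fun y _ => ?_
    exact Oc_iff P p y
  rw [h]

/-- **Chains of almost primes with a prescribed length and exact neighbourhoods.** -/
theorem result (l k D : ℕ) (hk : 1 ≤ k) :
    ∃ δ : ℝ, 0 < δ ∧ ∃ r₀ : ℕ, 2 ≤ r₀ ∧ ∀ r : ℕ, r₀ ≤ r → ∀ b : ℕ, 2 ≤ b →
      ∃ κ C c : ℝ, 0 < κ ∧ 0 < C ∧ 0 < c ∧ ∀ᶠ K : ℕ in atTop, ∀ M : ℕ, M ≤ b ^ (D * K) →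
        ∀ P : Finset (Fin l × ℕ), P.card = k → (∀ x ∈ P, (x.2 : ℝ) ≤ c * K) → Admissible P →
        ∀ A : ℕ → Finset ℕ, (∀ i < K, A i ⊆ range b) →
        (b : ℝ) ^ K ≤ Real.exp (δ * K) * choices K A →
        κ / (K : ℝ) ^ k ≤ V P (b ^ K) ∧
        ((∃ d ∈ A 0, ∀ x ∈ P, (L x.1 (M + d) + x.2).natAbs.Coprime b) → (∃ d ∈ A (K - 1), d ≠ 0) →
          κ * choices K A * V P (b ^ K) ≤
            count b K A {n | b ^ (K - 1) ≤ n ∧
              (∀ x ∈ P, AlmostPrime r (b ^ K) (L x.1 (M + n) + x.2).natAbs) ∧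
              ∀ x : Fin l × ℕ, (x.2 : ℝ) ≤ c * K → x ∉ P →
                ¬ Rough r (b ^ K) (L x.1 (M + n) + x.2).natAbs}) ∧
        (count b K A {n | ∀ x ∈ P, (L x.1 (M + n) + x.2).natAbs.Prime} : ℝ) ≤
          C * choices K A * V P (b ^ K) := by
  obtain ⟨δ, hδ, r₀, hr₀, h⟩ := Pool.Agent.H225.MX.exact (ca : Fin l → ℤ) ca_ne k (D + 1) hk
  refine ⟨δ, hδ, r₀, hr₀, fun r hr b hb => ?_⟩
  obtain ⟨κ, C, c, hκ, hC, hc, h1⟩ := h r hr b hb
  refine ⟨κ, C, c, hκ, hC, hc, ?_⟩
  filter_upwards [h1, eventually_ge_atTop (∑ i : Fin l, (cc i).natAbs)] with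
    K hK hKc M hM P hPk hPc hadm A hA hprod
  have hKb : K < b ^ K := Nat.lt_pow_self (by omega)
  have hbb : b ^ K ≤ b ^ ((D + 1) * K) := Nat.pow_le_pow_right (by omega) (by nlinarith)
  have hM' : M ≤ b ^ ((D + 1) * K) := hM.trans (Nat.pow_le_pow_right (by omega) (by nlinarith))
  have hcc : ∀ i : Fin l, (cc i).natAbs ≤ b ^ ((D + 1) * K) := fun i => by
    have h5 : (cc i).natAbs ≤ ∑ i : Fin l, (cc i).natAbs :=
      single_le_sum (f := fun i : Fin l => (cc i).natAbs) (fun _ _ => Nat.zero_le _) (mem_univ i)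
    omega
  have hadm' : Adm ca cc P := fun p hp => by
    obtain ⟨y, hy⟩ := hadm p hp
    exact ⟨y, fun h => hy ((Oc_iff P p y).1 h)⟩
  obtain ⟨h2, h3, h4⟩ := hK M hM' cc hcc P hPk hPc hadm' (fun x hx y hxy _ hya =>
    sep_of_dvd ca_ne ca_dvd x hx y hxy hya) A hA hprod
  rw [V_eq] at h2 h3 h4
  simp only [fm_eq] at h3 h4
  refine ⟨h2, h3, le_trans (Nat.cast_le.2 ?_) h4⟩
  refine ND_sub fun n hn hn1 hn2 => ⟨hn1, fun x hx p hp hpd => ?_⟩
  have hpr : (L x.1 (M + n) + x.2).natAbs.Prime := hn2 x hx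
  rw [(Nat.prime_dvd_prime_iff_eq hp hpr).1 hpd]
  have h5 := L_ge x.1 (M + n) x.2
  have h6 : (L x.1 (M + n) + x.2).natAbs ^ 2 ≤ (L x.1 (M + n) + x.2).natAbs ^ r :=
    Nat.pow_le_pow_right hpr.pos (hr₀.trans hr)
  have h7 := hpr.two_le
  nlinarith

end Pool.Agent.Results.MP_77cbc6_nt.ExactNeighbourhoods
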