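import Pool.Agent.H225.DG2

/-!
# Chains of the first kind of exact length `k` from integers with restricted digits

Let `b ≥ 2` be a base and let the digits of a number `n < b^K` be restricted: the `i`-th digit belongs
to a set `A i`, where the sets `A i` are arbitrary, depend on the place `i < K`, and have the only
property that the number `∏ |A i|` of these integers `n` is at least `e^{-δK} b^K`, where the constant
`δ > 0` does not depend on `b`.  (For example one digit may be excluded at every place if `b` is large;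
or a positive proportion of the digits may be fixed.)  Let `N` be an arbitrary base point up to a fixed
power of `b^K`, and `m = N + n`.  The number of these `m` which start a Cunningham chain of the first
kind of exact length `k`, i.e. such that `c_i(m) = 2^i (m + 1) - 1` is prime for `i < k` and not for
`i = k`, should have the order of magnitude `∏ |A i| / K^k` (if the last digit can be chosen such that
`c_0(m), …, c_{k-1}(m)` are prime to `b`).

We show that this is an upper bound, and a lower bound for the number of the `m` for which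
`c_0(m), …, c_{k-1}(m)` have at most `r` prime factors each, all of them larger than `b^{K/r}`, and
`c_k(m)` is not prime.

The method is a Brun–Hooley sieve with weights, whose level of distribution is obtained from the Fourier
transform of the set of the integers with restricted digits at rationals (large sieve in blocks of
digits), see `Pool/Agent/Y816/PD`; the chains which can be continued by a prime are removed by the upper
bound for `k + 1` forms (`Pool.Agent.H225.DG2`).
-/

set_option autoImplicit false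

namespace Pool.Agent.Results.MP_77cbc6_nt.RestrictedDigits

open Finset Filter Polynomial

/-- The `i`-th term of the chain of the first kind which starts at `m`. -/
def c (i m : ℕ) : ℕ := 2 ^ i * (m + 1) - 1

open Classical in
/-- The number of the `n < b ^ K` in `T` whose `i`-th digit in base `b` belongs to `A i` for all
`i < K`. -/
noncomputable def count (b K : ℕ) (A : ℕ → Finset ℕ) (T : Set ℕ) : ℕ :=
  ((range (b ^ K)).filter (fun n => (∀ i < K, n / b ^ i % b ∈ A i) ∧ n ∈ T)).card

/-- The number of choices of the digits. -/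
noncomputable def choices (K : ℕ) (A : ℕ → Finset ℕ) : ℝ := ∏ i ∈ range K, ((A i).card : ℝ)

/-- `m` has at most `r` prime factors, counted with multiplicity, and all of them are larger than
`z ^ (1 / r)`. -/
def AlmostPrime (r z m : ℕ) : Prop :=
  (∀ p : ℕ, p.Prime → p ∣ m → z < p ^ r) ∧ m.primeFactorsList.length ≤ r

open Pool.Agent.Y816.PD (NA ND ND_sub)
open Pool.Agent.W123.RU.Poly (Sys)
open Pool.Agent.W182.PW (lin lin_eval)
open Pool.Agent.TH977.PW (sys_lin)

/-- the forms -/
noncomputable def f (k : ℕ) (i : Fin k) : ℤ[X] := lin (2 ^ (i : ℕ)) (2 ^ (i : ℕ) - 1)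

lemma eval_lin (i m : ℕ) : (lin (2 ^ i) (2 ^ i - 1)).eval (m : ℤ) = (c i m : ℤ) := by
  have h : 1 ≤ 2 ^ i * (m + 1) := Nat.mul_pos (by positivity) (by omega)
  rw [lin_eval, c, Nat.cast_sub h]
  push_cast
  ring

lemma eval_f {k : ℕ} (i : Fin k) (m : ℕ) : ((f k i).eval (m : ℤ)).natAbs = c i m := by
  unfold f
  rw [eval_lin, Int.natAbs_natCast]

lemma sys (k : ℕ) : Sys (f k) := by
  refine sys_lin (fun i : Fin k => 2 ^ (i : ℕ)) (fun i : Fin k => 2 ^ (i : ℕ) - 1)
    (fun i => by positivity) (fun i => ?_) (fun i j hij _ => ?_) (fun p hp => ?_)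
  · refine ⟨1, -1, ?_⟩
    push_cast
    ring
  · exact Fin.ext (Nat.pow_right_injective le_rfl hij)
  · refine ⟨p - 1, fun i hi => ?_⟩
    have e : (((2 ^ (i : ℕ) : ℕ) : ℤ) * ((p - 1 : ℕ) : ℤ) + (2 ^ (i : ℕ) - 1)) =
        p * 2 ^ (i : ℕ) - 1 := by
      rw [Nat.cast_sub hp.one_lt.le]
      push_cast
      ring
    rw [e] at hi
    have h1 : (p : ℤ) ∣ 1 := by
      have h2 := dvd_sub (Dvd.intro (2 ^ (i : ℕ)) rfl : (p : ℤ) ∣ p * 2 ^ (i : ℕ)) hi
      have e2 : (p : ℤ) * 2 ^ (i : ℕ) - (p * 2 ^ (i : ℕ) - 1) = 1 := by ring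
      rwa [e2] at h2
    have h2 : p ∣ 1 := by exact_mod_cast h1
    exact hp.one_lt.ne' (Nat.dvd_one.1 h2)

lemma snoc (k : ℕ) : (Fin.snoc (f k) (lin (2 ^ k) (2 ^ k - 1)) : Fin (k + 1) → ℤ[X]) =
    f (k + 1) := by
  funext i
  refine Fin.lastCases ?_ (fun j => ?_) i
  · rw [Fin.snoc_last]
    rfl
  · rw [Fin.snoc_castSucc]
    rfl

/-- **Chains of the first kind of exact length `k` from integers with restricted digits.** -/
theorem result (k D : ℕ) (hk : 1 ≤ k) :
    ∃ δ : ℝ, 0 < δ ∧ ∃ r₀ : ℕ, 2 ≤ r₀ ∧ ∀ r : ℕ, r₀ ≤ r → ∀ b : ℕ, 2 ≤ b →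
      ∃ κ C : ℝ, 0 < κ ∧ 0 < C ∧
      ∀ᶠ K : ℕ in atTop, ∀ N : ℕ, N ≤ b ^ (D * K) →
        ∀ A : ℕ → Finset ℕ, (∀ i < K, A i ⊆ range b) →
        (b : ℝ) ^ K ≤ Real.exp (δ * K) * choices K A →
        ((∃ d ∈ A 0, ∀ i < k, (c i (N + d)).Coprime b) → (∃ d ∈ A (K - 1), d ≠ 0) →
          κ * choices K A / (K : ℝ) ^ k ≤ count b K A {n | b ^ (K - 1) ≤ n ∧
            (∀ i < k, AlmostPrime r (b ^ K) (c i (N + n))) ∧ ¬ (c k (N + n)).Prime}) ∧
        (count b K A {n | ∀ i < k, (c i (N + n)).Prime} : ℝ) ≤ C * choices K A / (K : ℝ) ^ k := by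
  obtain ⟨δ, hδ, r₀, hr₀, h⟩ := Pool.Agent.H225.DG2.fixedE hk (f k) (sys k)
    (lin (2 ^ k) (2 ^ k - 1)) (by rw [snoc]; exact sys (k + 1)) D
  refine ⟨δ, hδ, r₀, hr₀, fun r hr b hb => ?_⟩
  obtain ⟨κ, C, hκ, hC, h1⟩ := h r hr b hb
  refine ⟨κ, C, hκ, hC, ?_⟩
  filter_upwards [h1] with K hK N hN A hA hprod
  obtain ⟨h2, h3⟩ := hK N hN A hA hprod
  have hlt : ∀ n v : ℕ, v.Prime → N + n ≤ v → n < v ^ r := by
    intro n v hv hle
    have h5 : v < v ^ 2 := by nlinarith [hv.two_le]
    have h6 : v ^ 2 ≤ v ^ r := Nat.pow_le_pow_right hv.pos (by omega)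
    omega
  have hge : ∀ i m : ℕ, m ≤ c i m := by
    intro i m
    unfold c
    have : m + 1 ≤ 2 ^ i * (m + 1) := Nat.le_mul_of_pos_left _ (by positivity)
    omega
  constructor
  · rintro ⟨d, hd, hcop⟩ htop
    refine (h2 ⟨d, hd, fun i => ?_⟩ htop).trans (Nat.cast_le.2 ?_)
    · rw [eval_f]
      exact hcop i i.2
    · refine ND_sub fun n _ hn1 hn2 => ⟨hn1, hn2.1, fun i hi => ?_, fun hp => hn2.2.2 ?_⟩
      · have := hn2.2.1 ⟨i, hi⟩
        rw [eval_f] at this
        exact this
      · rw [eval_lin, Int.natAbs_natCast]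
        exact ⟨hp, hlt n _ hp (hge _ _)⟩
  · refine le_trans (Nat.cast_le.2 ?_) h3
    refine ND_sub fun n _ hn1 hn2 => ⟨hn1, fun i p hp hpd => ?_⟩
    have hp0 : (c i (N + n)).Prime := hn2 i i.2
    rw [Int.natCast_dvd, eval_f] at hpd
    rw [(Nat.prime_dvd_prime_iff_eq hp hp0).1 hpd]
    exact hlt n _ hp0 (hge _ _)

end Pool.Agent.Results.MP_77cbc6_nt.RestrictedDigits
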